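import Pool.Agent.H57.Lang.Assemble

/-!
# Nonreal fields over real closed fields are strongly `C_i`

Let `K` be a field of transcendence degree `i` over a real closed field `R`.

**Theorem.** (1) The following are equivalent: `-1` is a sum of squares in `K`; `K` is a `C_i`-field
(for systems of forms; this is Lang's conjecture of 1953); `K` is strongly `C_i`: if `f_1, ..., f_r`
are polynomials in `N` variables, homogeneous or not, of degrees at most `d_1, ..., d_r`, where the
variables have weights `w_1, ..., w_N ≥ 1`, and `d_1 ^ i + ... + d_r ^ i < w_1 ^ i + ... + w_N ^ i`,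
and if they have one common zero in `K ^ N`, then they have infinitely many.

(2) More precisely, let `v₀` be a common zero, and let `ℓ_1, ..., ℓ_M` be `R`-linear functionals on
`K ^ N` (none if `i = 0`). There is a finite dimensional `R`-space `V ≠ 0` in the common kernel of
the `ℓ_μ` such that every ellipsoid in `v₀ + V` with centre `v₀` contains a common zero. So there are
infinitely many common zeros `v` with `ℓ_μ(v) = ℓ_μ(v₀)` for all `μ`, and `v₀` is not isolated.

The library contains the case of forms (`LangSystems`). The proof here replaces the descent on the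
sphere, which uses the homogeneity, by one on the ball: an interior minimum of
`∑ |f_j| ^ 2 - λ |v| ^ 2` is impossible.
-/

set_option autoImplicit false

namespace Pool.Agent.Results.MP_c7dfba_nt.StronglyCi

open Pool.Agent.H57.Lang

/-- `-1` is a sum of squares in `K`. -/
def Nonreal (K : Type) [Field K] : Prop := ∃ (q : ℕ) (g : Fin q → K), ∑ l, g l ^ 2 = -1

/-- `K` is a `C_i`-field, for systems of forms. -/
def IsC (K : Type) [Field K] (i : ℕ) : Prop :=
  ∀ (r N : ℕ) (d : Fin r → ℕ) (f : Fin r → MvPolynomial (Fin N) K),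
    (∀ j, 1 ≤ d j) → (∀ j, (f j).IsHomogeneous (d j)) → ∑ j, d j ^ i < N →
      ∃ a : Fin N → K, a ≠ 0 ∧ ∀ j, MvPolynomial.eval a (f j) = 0

/-- `f` is a system of polynomials in variables of weights `w_a ≥ 1`, all monomials of `f j` have
weight at most `d j ≥ 1`, and `∑ j, d_j ^ i < ∑ a, w_a ^ i`. -/
def Admissible {K I J : Type} [Field K] [Fintype I] [Fintype J] (i : ℕ) (w : I → ℕ) (d : J → ℕ)
    (f : J → MvPolynomial I K) : Prop :=
  (∀ a, 1 ≤ w a) ∧ (∀ j, 1 ≤ d j) ∧ (∀ j, ∀ α ∈ (f j).support, ∑ a, α a * w a ≤ d j) ∧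
    ∑ j, d j ^ i < ∑ a, w a ^ i

/-- `K` is strongly `C_i`: admissible systems which have a common zero have infinitely many. -/
def IsStronglyC (K : Type) [Field K] (i : ℕ) : Prop :=
  ∀ (r N : ℕ) (w : Fin N → ℕ) (d : Fin r → ℕ) (f : Fin r → MvPolynomial (Fin N) K),
    Admissible i w d f → (∃ v : Fin N → K, ∀ j, MvPolynomial.eval v (f j) = 0) →
      {v : Fin N → K | ∀ j, MvPolynomial.eval v (f j) = 0}.Infinite

/-- There is a finite dimensional `R`-space `V ≠ 0` in `K ^ I`, on which the `R`-linear functionals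
`ℓ μ` vanish, such that every ellipsoid around `v₀` in `v₀ + V` contains a common zero: for every
basis `e` of `V` and `r > 0` there is a common zero `v₀ + ∑ s_m e_m` with `∑ s_m ^ 2 = r`. -/
def ZeroOnEllipsoids (R : Type) {K : Type} [Field R] [LinearOrder R] [Field K] [Algebra R K]
    {I J : Type} (f : J → MvPolynomial I K) (v₀ : I → K) {M : ℕ}
    (ℓ : Fin M → (I → K) →ₗ[R] R) : Prop :=
  ∃ V : Submodule R (I → K), FiniteDimensional R V ∧ V ≠ ⊥ ∧ (∀ v ∈ V, ∀ μ, ℓ μ v = 0) ∧
    ∀ (ι : Type) [Fintype ι] (e : Module.Basis ι R V) (r : R), 0 < r → ∃ s : ι → R,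
      ∑ m, s m ^ 2 = r ∧
        ∀ j, MvPolynomial.eval (v₀ + ∑ m, s m • (e m : I → K)) (f j) = 0

/-- The nonreal fields of transcendence degree `i` over real closed fields are strongly `C_i`. -/
theorem result (R K : Type) [Field R] [LinearOrder R] [IsStrictOrderedRing R] [IsRealClosed R]
    [Field K] [Algebra R K] (i : ℕ) (htr : ∃ x : Fin i → K, IsTranscendenceBasis R x) :
    (Nonreal K ↔ IsC K i) ∧ (Nonreal K ↔ IsStronglyC K i) ∧
    (Nonreal K → ∀ (I J : Type) [Fintype I] [Fintype J] (w : I → ℕ) (d : J → ℕ)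
      (f : J → MvPolynomial I K), Admissible i w d f → ∀ v₀ : I → K,
      (∀ j, MvPolynomial.eval v₀ (f j) = 0) → ∀ (M : ℕ) (ℓ : Fin M → (I → K) →ₗ[R] R),
      (i = 0 → M = 0) → ZeroOnEllipsoids R f v₀ ℓ ∧
        {v : I → K | (∀ j, MvPolynomial.eval v (f j) = 0) ∧ ∀ μ, ℓ μ v = ℓ μ v₀}.Infinite) := by
  classical
  have hsq : ∀ x : R, 0 ≤ x → ∃ y, y ^ 2 = x := fun x hx => by
    obtain ⟨y, hy⟩ := IsRealClosed.nonneg_iff_isSquare.mp hx
    exact ⟨y, by rw [hy, sq]⟩
  have main : Nonreal K → ∀ (I J : Type) [Fintype I] [Fintype J] (w : I → ℕ) (d : J → ℕ)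
      (f : J → MvPolynomial I K), Admissible i w d f → ∀ v₀ : I → K,
      (∀ j, MvPolynomial.eval v₀ (f j) = 0) → ∀ (M : ℕ) (ℓ : Fin M → (I → K) →ₗ[R] R),
      (i = 0 → M = 0) → OnEllipsoids R f v₀ ℓ := by
    rintro ⟨q, g, hg⟩ I J _ _ w d f ⟨hw, hd, hf, hN⟩ v₀ hv₀ M ℓ hM
    obtain ⟨x, hx⟩ := htr
    refine core (Pool.Agent.Helper716_Lang.RC.sphereMin_of_isRealClosed R) hsq hx g hg w hw d hd hN
      f (fun j α hα => ?_) v₀ hv₀ hM ℓ
    refine le_trans (le_of_eq ?_) (hf j α hα)
    rw [Finsupp.weight_apply, Finsupp.sum_fintype _ _ (fun a => by simp)]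
    rfl
  have strong : Nonreal K → IsStronglyC K i := by
    rintro hK r N w d f had ⟨v₀, hv₀⟩
    have h1 := (main hK _ _ w d f had v₀ hv₀ 0 (fun μ => 0) (fun _ => rfl)).infinite
    refine h1.mono fun v hv => hv.1
  have toC : IsStronglyC K i → IsC K i := by
    intro hs r N d f hd hf hN
    have h0 : ∀ j, MvPolynomial.eval (0 : Fin N → K) (f j) = 0 := by
      intro j
      rw [MvPolynomial.eval_zero, MvPolynomial.constantCoeff_eq]
      by_contra hne
      have h1 := hf j hne
      simp at h1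
      have := hd j
      omega
    have h1 := hs r N (fun _ => 1) d f ⟨fun _ => le_rfl, hd, fun j α hα => ?_, by simpa using hN⟩
      ⟨0, h0⟩
    · obtain ⟨v, hv, hv0⟩ := h1.exists_notMem_finite (Set.finite_singleton (0 : Fin N → K))
      exact ⟨v, fun h => hv0 (by rw [h]; exact Set.mem_singleton _), hv⟩
    · have h2 := hf j (MvPolynomial.mem_support_iff.1 hα)
      rw [← h2, Finsupp.weight_apply, Finsupp.sum_fintype _ _ (fun a => by simp)]
      exact le_of_eq (Finset.sum_congr rfl fun a _ => by simp)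
  have ofC : IsC K i → Nonreal K := by
    intro hC
    obtain ⟨a, ha, hq⟩ := hC 1 (2 ^ i + 1) (fun _ => 2) (fun _ => ∑ l, MvPolynomial.X l ^ 2)
      (fun _ => by norm_num) (fun _ => MvPolynomial.IsHomogeneous.sum _ _ _ fun l _ => by
        simpa using (MvPolynomial.isHomogeneous_X K l).pow 2) (by simp)
    have h1 := hq 0
    rw [map_sum] at h1
    simp only [map_pow, MvPolynomial.eval_X] at h1
    obtain ⟨m, hm⟩ : ∃ m, a m ≠ 0 := by
      by_contra hcon
      push Not at hcon
      exact ha (funext hcon)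
    refine ⟨2 ^ i + 1, fun l => if l = m then 0 else a l / a m, ?_⟩
    have h2 : ∀ l, (if l = m then 0 else a l / a m) ^ 2 = (a l) ^ 2 / (a m) ^ 2 -
        if l = m then 1 else 0 := by
      intro l
      by_cases hl : l = m
      · subst hl
        rw [if_pos rfl, if_pos rfl, div_self (pow_ne_zero 2 hm)]
        simp
      · rw [if_neg hl, if_neg hl, div_pow, sub_zero]
    simp only [h2]
    rw [Finset.sum_sub_distrib, ← Finset.sum_div, h1]
    simp
  refine ⟨⟨fun h => toC (strong h), ofC⟩, ⟨strong, fun h => ofC (toC h)⟩, ?_⟩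
  intro hK I J _ _ w d f had v₀ hv₀ M ℓ hM
  have h1 := main hK I J w d f had v₀ hv₀ M ℓ hM
  exact ⟨h1, h1.infinite⟩

end Pool.Agent.Results.MP_c7dfba_nt.StronglyCi
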